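import Mathlib
import Pool.Agent.SWL57.In
import Pool.Agent.SWT85.End

/-!
# The value of the functional on closed words of operators
-/

set_option autoImplicit false

namespace Pool.Agent.SWL73

open Pool.Agent.Jac70 Pool.Agent.SWT85 Pool.Agent.SWT45 Pool.Agent.SWT93 Pool.Agent.SWL57
open Pool.Agent.SWW54 (Lt ev sm sm_cons sm_append tyc)

/-! ### The operators of a ladder -/

/-- The operator of a letter of a ladder; the letter `p` has none. -/
def opL : Ll → ℕ
  | .h => 500
  | .k => 501
  | .r => 101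
  | .o => 0
  | .p => 0

/-- The letter is not `p`. -/
def np : Ll → Bool
  | .p => false
  | _ => true

/-- The number of the legs of the rails. -/
def hh : List Ll → ℕ
  | [] => 0
  | .h :: w => 1 + hh w
  | .k :: w => 1 + hh w
  | .r :: w => hh w
  | .o :: w => hh w
  | .p :: w => hh w

theorem xw_h : xw 2 500 = [(2, [.a 0]), (-1, [.o 0]), (1, [.b 0 1])] := by decide

theorem xw_k : xw 2 501 = [(2, [.a 1]), (-1, [.o 1]), (1, [.b 0 1])] := by decide

theorem xw_r : xw 2 101 = [(1, [.b 0 1])] := by decide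

theorem xw_o : xw 2 0 = [(1, [.o 0])] := by decide

section

variable {H : Type} [DecidableEq H] {f : A H →+ ZMod 3}

theorem f_sm (F : List Lt → A H) (R : List (ℤ × List Lt)) :
    f (sm F R) = sm (fun w => f (F w)) R := by
  induction R with
  | nil => exact map_zero f
  | cons t R ih => rw [sm_cons, sm_cons, map_add, map_zsmul, ih]

/-- The first letter of a product is split off. -/
theorem sm_ml1 (F : List Lt → A H) (l : List Lt) (R : List (ℤ × List Lt)) :
    sm F (ml [(1, l)] R) = sm (fun v => F (l ++ v)) R := by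
  rw [sm_ml, sm_cons, sm_nil, add_zero, one_smul]

theorem sm_ml3 (F : List Lt → A H) (l l' l'' : List Lt) (R : List (ℤ × List Lt)) :
    sm F (ml [(2, l), (-1, l'), (1, l'')] R) = (2 : ℤ) • sm (fun v => F (l ++ v)) R +
      ((-1 : ℤ) • sm (fun v => F (l' ++ v)) R + sm (fun v => F (l'' ++ v)) R) := by
  rw [sm_ml, sm_cons, sm_cons, sm_cons, sm_nil, add_zero, one_smul]

theorem cat3 (p l v u : List Lt) : p ++ (l ++ v) ++ u = (p ++ l) ++ v ++ u := by
  simp only [List.append_assoc]

theorem lcs_append (v w : List Lt) : lcs (v ++ w) = lcs v + lcs w := by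
  induction v with
  | nil => exact (Nat.zero_add _).symm
  | cons l v ih =>
    show lc l + lcs (v ++ w) = lc l + lcs v + lcs w
    rw [ih, Nat.add_assoc]

/-- The terms with few legs vanish. -/
theorem low_ops (hlow : ∀ w : List Lt, lcs w < 8 → f (ev H w) = 0) (w : List Ll) :
    ∀ p u : List Lt, lcs p + hh w + lcs u < 8 →
      f (sm (fun v => ev H (p ++ v ++ u)) (xs 2 (w.map opL))) = 0 := by
  induction w with
  | nil =>
    intro p u h
    show f (sm (fun v => ev H (p ++ v ++ u)) [(1, [])]) = 0
    rw [sm_cons, sm_nil, add_zero, one_smul]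
    refine hlow _ ?_
    rw [List.append_nil, lcs_append]
    have : hh [] = 0 := rfl
    omega
  | cons l w ih =>
    intro p u h
    have key : ∀ q : Lt, lcs p + lc q + hh w + lcs u < 8 →
        f (sm (fun v => ev H (p ++ ([q] ++ v) ++ u)) (xs 2 (w.map opL))) = 0 := by
      intro q hq
      simp only [cat3]
      refine ih (p ++ [q]) u ?_
      rw [lcs_append]
      have : lcs [q] = lc q := Nat.add_zero _
      omega
    cases l with
    | h =>
      have h' : lcs p + (1 + hh w) + lcs u < 8 := h
      have e : xs 2 ((Ll.h :: w).map opL) = ml (xw 2 500) (xs 2 (w.map opL)) := rfl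
      rw [e, xw_h, sm_ml3, map_add, map_add, map_zsmul, map_zsmul,
        key (.a 0) (by have : lc (.a 0) = 1 := rfl; omega),
        key (.o 0) (by have : lc (.o 0) = 0 := rfl; omega),
        key (.b 0 1) (by have : lc (.b 0 1) = 0 := rfl; omega)]
      simp
    | k =>
      have h' : lcs p + (1 + hh w) + lcs u < 8 := h
      have e : xs 2 ((Ll.k :: w).map opL) = ml (xw 2 501) (xs 2 (w.map opL)) := rfl
      rw [e, xw_k, sm_ml3, map_add, map_add, map_zsmul, map_zsmul,
        key (.a 1) (by have : lc (.a 1) = 1 := rfl; omega),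
        key (.o 1) (by have : lc (.o 1) = 0 := rfl; omega),
        key (.b 0 1) (by have : lc (.b 0 1) = 0 := rfl; omega)]
      simp
    | r =>
      have h' : lcs p + hh w + lcs u < 8 := h
      have e : xs 2 ((Ll.r :: w).map opL) = ml (xw 2 101) (xs 2 (w.map opL)) := rfl
      rw [e, xw_r, sm_ml1]
      exact key (.b 0 1) (by have : lc (.b 0 1) = 0 := rfl; omega)
    | o =>
      have h' : lcs p + hh w + lcs u < 8 := h
      have e : xs 2 ((Ll.o :: w).map opL) = ml (xw 2 0) (xs 2 (w.map opL)) := rfl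
      rw [e, xw_o, sm_ml1]
      exact key (.o 0) (by have : lc (.o 0) = 0 := rfl; omega)
    | p =>
      have h' : lcs p + hh w + lcs u < 8 := h
      have e : xs 2 ((Ll.p :: w).map opL) = ml (xw 2 0) (xs 2 (w.map opL)) := rfl
      rw [e, xw_o, sm_ml1]
      exact key (.o 0) (by have : lc (.o 0) = 0 := rfl; omega)

/-- **The value of the functional on a word of operators.** -/
theorem val_ops (hlow : ∀ w : List Lt, lcs w < 8 → f (ev H w) = 0) (w : List Ll)
    (hw : w.all np = true) :
    ∀ p u : List Lt, lcs p + hh w + lcs u ≤ 8 →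
      f (sm (fun v => ev H (p ++ v ++ u)) (xs 2 (w.map opL))) =
        ((2 : ℤ) ^ hh w) • f (ev H (p ++ w.map ltr ++ u)) := by
  induction w with
  | nil =>
    intro p u _
    show f (sm (fun v => ev H (p ++ v ++ u)) [(1, [])]) = _
    rw [sm_cons, sm_nil, add_zero, one_smul]
    show _ = ((2 : ℤ) ^ 0) • f (ev H (p ++ [] ++ u))
    rw [pow_zero, one_smul]
  | cons l w ih =>
    intro p u h
    have hw' : w.all np = true := by
      rw [List.all_cons, Bool.and_eq_true] at hw
      exact hw.2
    have key : ∀ q : Lt, lcs p + lc q + hh w + lcs u < 8 →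
        f (sm (fun v => ev H (p ++ ([q] ++ v) ++ u)) (xs 2 (w.map opL))) = 0 := by
      intro q hq
      simp only [cat3]
      refine low_ops hlow w (p ++ [q]) u ?_
      rw [lcs_append]
      have : lcs [q] = lc q := Nat.add_zero _
      omega
    have main : ∀ q : Lt, lcs p + lc q + hh w + lcs u ≤ 8 →
        f (sm (fun v => ev H (p ++ ([q] ++ v) ++ u)) (xs 2 (w.map opL))) =
          ((2 : ℤ) ^ hh w) • f (ev H (p ++ (q :: w.map ltr) ++ u)) := by
      intro q hq
      simp only [cat3]
      rw [ih hw' (p ++ [q]) u]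
      · rw [← cat3]
        rfl
      · rw [lcs_append]
        have : lcs [q] = lc q := Nat.add_zero _
        omega
    cases l with
    | h =>
      have h' : lcs p + (1 + hh w) + lcs u ≤ 8 := h
      have e : xs 2 ((Ll.h :: w).map opL) = ml (xw 2 500) (xs 2 (w.map opL)) := rfl
      rw [e, xw_h, sm_ml3, map_add, map_add, map_zsmul, map_zsmul,
        main (.a 0) (by have : lc (.a 0) = 1 := rfl; omega),
        key (.o 0) (by have : lc (.o 0) = 0 := rfl; omega),
        key (.b 0 1) (by have : lc (.b 0 1) = 0 := rfl; omega), smul_zero, add_zero, add_zero,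
        ← mul_smul]
      have e2 : hh (Ll.h :: w) = hh w + 1 := Nat.add_comm _ _
      rw [e2, pow_succ, mul_comm]
      rfl
    | k =>
      have h' : lcs p + (1 + hh w) + lcs u ≤ 8 := h
      have e : xs 2 ((Ll.k :: w).map opL) = ml (xw 2 501) (xs 2 (w.map opL)) := rfl
      rw [e, xw_k, sm_ml3, map_add, map_add, map_zsmul, map_zsmul,
        main (.a 1) (by have : lc (.a 1) = 1 := rfl; omega),
        key (.o 1) (by have : lc (.o 1) = 0 := rfl; omega),
        key (.b 0 1) (by have : lc (.b 0 1) = 0 := rfl; omega), smul_zero, add_zero, add_zero,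
        ← mul_smul]
      have e2 : hh (Ll.k :: w) = hh w + 1 := Nat.add_comm _ _
      rw [e2, pow_succ, mul_comm]
      rfl
    | r =>
      have h' : lcs p + hh w + lcs u ≤ 8 := h
      have e : xs 2 ((Ll.r :: w).map opL) = ml (xw 2 101) (xs 2 (w.map opL)) := rfl
      rw [e, xw_r, sm_ml1]
      exact main (.b 0 1) (by have : lc (.b 0 1) = 0 := rfl; omega)
    | o =>
      have h' : lcs p + hh w + lcs u ≤ 8 := h
      have e : xs 2 ((Ll.o :: w).map opL) = ml (xw 2 0) (xs 2 (w.map opL)) := rfl
      rw [e, xw_o, sm_ml1]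
      exact main (.o 0) (by have : lc (.o 0) = 0 := rfl; omega)
    | p => exact absurd hw (by rw [List.all_cons]; exact Bool.false_ne_true)

end

/-! ### Closed words -/

/-- The operators of a closed ladder. -/
def cw (w : List Ll) : List ℕ := 201 :: (w.map opL ++ [300])

/-- The terms of a closed sum. -/
def tms (X : List (ℤ × List Ll)) : List Tm := X.map fun x => ⟨x.1, cw x.2⟩

/-- The value of a closed word of operators, if it can be computed. -/
def cvo (w : List Ll) : Option ℤ :=
  if hh w < 6 then some 0 else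
    if w.all np = true ∧ hh w = 6 ∧ hc w = 8 ∧ vc w = 16 ∧ num w % 9 = 0 then
      some (64 * (num w / 9)) else none

/-- The value of a closed sum, if it can be computed. -/
def cvos : List (ℤ × List Ll) → Option ℤ
  | [] => some 0
  | x :: X => match cvo x.2, cvos X with
    | some a, some b => some (x.1 * a + b)
    | _, _ => none

theorem xw_Y : xw 1 201 = [(1, [.Y 0 1])] := by decide

theorem xw_M : xw 2 300 = [(1, [.M 0 1])] := by decide

theorem ko_opL (l : Ll) : ko 2 (opL l) = 2 := by cases l <;> rfl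

section

variable {H : Type} [DecidableEq H]

theorem xs_append (F : List Lt → A H) (w : List Ll) (p : List Lt) :
    sm (fun v => F (p ++ v)) (xs 2 (w.map opL ++ [300])) =
      sm (fun v => F (p ++ v ++ [.M 0 1])) (xs 2 (w.map opL)) := by
  induction w generalizing p with
  | nil =>
    have e : xs 2 (([] : List Ll).map opL ++ [300]) = ml (xw 2 300) [(1, [])] := rfl
    have e' : xs 2 (([] : List Ll).map opL) = [(1, [])] := rfl
    rw [e, e', xw_M, sm_ml1, sm_cons, sm_cons, sm_nil, sm_nil, List.append_nil, List.append_nil]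
  | cons l w ih =>
    have e : xs 2 ((l :: w).map opL ++ [300]) =
        ml (xw 2 (opL l)) (xs 2 (w.map opL ++ [300])) := by
      show ml (xw 2 (opL l)) (xs (ko 2 (opL l)) (w.map opL ++ [300])) = _
      rw [ko_opL]
    have e' : xs 2 ((l :: w).map opL) = ml (xw 2 (opL l)) (xs 2 (w.map opL)) := by
      show ml (xw 2 (opL l)) (xs (ko 2 (opL l)) (w.map opL)) = _
      rw [ko_opL]
    rw [e, e', sm_ml, sm_ml]
    refine sm_congr fun t _ => ?_
    have := ih (p ++ t.2)
    simp only [List.append_assoc] at this ⊢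
    exact this

/-- The value of a closed word of operators. -/
theorem ow_cw (w : List Ll) :
    ow (fun k g => opP H k g) 1 (cw w) (fun u => ev H (.E 0 :: u)) [.A 0] =
      sm (fun v => ev H ([.E 0, .Y 0 1] ++ v ++ [.M 0 1, .A 0])) (xs 2 (w.map opL)) := by
  rw [ow_opP]
  have e : xs 1 (cw w) = ml (xw 1 201) (xs 2 (w.map opL ++ [300])) := rfl
  rw [e, xw_Y, sm_ml1]
  have := xs_append (H := H) (fun v => ev H (v ++ [.A 0])) w [.E 0, .Y 0 1]
  simp only [List.append_assoc, List.cons_append, List.nil_append] at this ⊢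
  exact this

variable [Fintype H] {F : (n : ℕ) → (V : Type) → SWT80.Gr V n → ZMod 3} {f : A H →+ ZMod 3}

theorem val_cw (hf : Gv F f) (h8 : F 8 = z8)
    (hlow : ∀ n < 8, ∀ (V : Type) (G : SWT80.Gr V n), F n V G = 0) (hH : Fintype.card H = 72)
    {w : List Ll} {k : ℤ} (h : cvo w = some k) :
    f (ow (fun k g => opP H k g) 1 (cw w) (fun u => ev H (.E 0 :: u)) [.A 0]) = (k : ZMod 3) := by
  have hne : Nonempty H := Fintype.card_pos_iff.1 (by omega)
  have hl : ∀ w : List Lt, lcs w < 8 → f (ev H w) = 0 := fun w hw => hf.ev_low hlow hw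
  rw [ow_cw]
  have e1 : lcs [.E 0, .Y 0 1] = 1 := rfl
  have e2 : lcs [.M 0 1, .A 0] = 1 := rfl
  unfold cvo at h
  split_ifs at h with h1 h2
  · rw [Option.some.injEq] at h
    subst h
    rw [low_ops hl w _ _ (by omega), Int.cast_zero]
  · rw [Option.some.injEq] at h
    subst h
    obtain ⟨q0, q1, q2, q3, q4⟩ := h2
    rw [val_ops hl w q0 _ _ (by omega), q1]
    have e3 : [.E 0, .Y 0 1] ++ w.map ltr ++ [.M 0 1, .A 0] =
        .E 0 :: .Y 0 1 :: (w.map ltr ++ [.M 0 1, .A 0]) := rfl
    rw [e3, ev_ltr, hf.ladder h8 hH w ((lL_length w 3).trans q2) ((lV_length w 3 1 2).trans q3)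
      (k := num w / 9) (by rw [nN_eq]; exact (Int.mul_ediv_cancel' (Int.dvd_of_emod_eq_zero q4)).symm)]
    rw [zsmul_eq_mul, ← Int.cast_mul]
    norm_num

theorem val_tms (hf : Gv F f) (h8 : F 8 = z8)
    (hlow : ∀ n < 8, ∀ (V : Type) (G : SWT80.Gr V n), F n V G = 0) (hH : Fintype.card H = 72)
    (X : List (ℤ × List Ll)) : ∀ k : ℤ, cvos X = some k →
      f (((tms X).map fun t => t.c • ow (fun k g => opP H k g) 1 t.w
        fun u => ev H (.E 0 :: u)).sum [.A 0]) = (k : ZMod 3) := by
  induction X with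
  | nil =>
    intro k h
    unfold cvos at h
    rw [Option.some.injEq] at h
    subst h
    rw [Int.cast_zero]
    exact map_zero f
  | cons x X ih =>
    intro k h
    unfold cvos at h
    split at h
    · rename_i a b ha hb
      rw [Option.some.injEq] at h
      subst h
      have e : tms (x :: X) = ⟨x.1, cw x.2⟩ :: tms X := rfl
      rw [e, List.map_cons, List.sum_cons, Pi.add_apply, map_add, ih b hb, Pi.smul_apply,
        map_zsmul, val_cw hf h8 hlow hH ha, Int.cast_add, Int.cast_mul, zsmul_eq_mul]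
    · exact absurd h (by simp)

end

/-! ### Sums of products of operators -/

section

variable {rs rs0 : List Rl} (M : Md rs rs0)

/-- The value of a sum of products of operators at the first state. -/
def sv (ts : List Tm) : M.U := (ts.map fun t => t.c • ow (fun k g => M.op k g) 1 t.w M.e).sum

theorem sv_nil : sv M [] = 0 := rfl

theorem sv_cons (t : Tm) (ts : List Tm) :
    sv M (t :: ts) = t.c • ow (fun k g => M.op k g) 1 t.w M.e + sv M ts := by
  unfold sv
  rw [List.map_cons, List.sum_cons]

theorem sv_append (ts us : List Tm) : sv M (ts ++ us) = sv M ts + sv M us := by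
  unfold sv
  rw [List.map_append, List.sum_append]

/-- The sum with the coefficients multiplied by `c`. -/
def scl (c : ℤ) (ts : List Tm) : List Tm := ts.map fun t => ⟨c * t.c, t.w⟩

theorem sv_scl (c : ℤ) (ts : List Tm) : sv M (scl c ts) = c • sv M ts := by
  induction ts with
  | nil => exact (smul_zero c).symm
  | cons t ts ih =>
    have e : scl c (t :: ts) = ⟨c * t.c, t.w⟩ :: scl c ts := rfl
    rw [e, sv_cons, sv_cons, ih, smul_add, mul_smul]

/-- The sum with the operators `v` after all products. -/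
def aft (v : List ℕ) (ts : List Tm) : List Tm := ts.map fun t => ⟨t.c, t.w ++ v⟩

variable {M}

theorem ow_cg {n k : ℕ} {v : List ℕ} (hv : okw k v = true) {x : M.U} (hx : x ∈ M.cg n k) :
    ow (fun k g => M.op k g) k v x ∈ M.cg n (kw k v) := by
  induction v generalizing k x with
  | nil => exact hx
  | cons g v ih =>
    unfold okw at hv
    rw [Bool.and_eq_true] at hv
    exact ih hv.2 (M.op_cg hv.1 hx)

theorem ow_zero (k : ℕ) (v : List ℕ) : ow (fun k g => M.op k g) k v 0 = 0 := by
  induction v generalizing k with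
  | nil => rfl
  | cons g v ih =>
    show ow (fun k g => M.op k g) (ko k g) v (M.op k g 0) = 0
    rw [map_zero, ih]

theorem ow_add (k : ℕ) (v : List ℕ) (x y : M.U) :
    ow (fun k g => M.op k g) k v (x + y) =
      ow (fun k g => M.op k g) k v x + ow (fun k g => M.op k g) k v y := by
  induction v generalizing k x y with
  | nil => rfl
  | cons g v ih =>
    show ow (fun k g => M.op k g) (ko k g) v (M.op k g (x + y)) = _
    rw [map_add, ih]
    rfl

theorem ow_zsmul (k : ℕ) (v : List ℕ) (c : ℤ) (x : M.U) :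
    ow (fun k g => M.op k g) k v (c • x) = c • ow (fun k g => M.op k g) k v x := by
  induction v generalizing k x with
  | nil => rfl
  | cons g v ih =>
    show ow (fun k g => M.op k g) (ko k g) v (M.op k g (c • x)) = _
    rw [map_zsmul, ih]
    rfl

/-- Operators after all products. -/
theorem sv_aft {k : ℕ} {ts : List Tm} (hk : ts.all (fun t => Nat.beq (kw 1 t.w) k) = true)
    (v : List ℕ) : sv M (aft v ts) = ow (fun k g => M.op k g) k v (sv M ts) := by
  induction ts with
  | nil => exact (ow_zero k v).symm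
  | cons t ts ih =>
    rw [List.all_cons, Bool.and_eq_true] at hk
    have e : aft v (t :: ts) = ⟨t.c, t.w ++ v⟩ :: aft v ts := rfl
    rw [e, sv_cons, sv_cons, ih hk.2, ow_add, ow_zsmul, ow_app, Nat.eq_of_beq_eq_true hk.1]

theorem sv_aft_cg {n k : ℕ} {ts : List Tm}
    (hk : ts.all (fun t => Nat.beq (kw 1 t.w) k) = true) {v : List ℕ} (hv : okw k v = true)
    (h : sv M ts ∈ M.cg n k) : sv M (aft v ts) ∈ M.cg n (kw k v) := by
  rw [sv_aft hk]
  exact ow_cg hv h

theorem cg_le {n m k : ℕ} (hm : n ≤ m) {x : M.U} (hx : x ∈ M.cg m k) : x ∈ M.cg n k := by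
  induction m, hm using Nat.le_induction with
  | base => exact hx
  | succ m _ ih => exact ih (M.cg_anti hx)

/-- **The sum of a target**: `3 ^ a` times the sum `ts` plus the sum `us`. -/
theorem sv_split {n a k : ℕ} {ts us : List Tm}
    (h : sv M (scl (3 ^ a) ts ++ us) ∈ M.cg (n + a) k) (hu : sv M us ∈ M.cg (n + a) k) :
    sv M ts ∈ M.cg n k := by
  rw [sv_append, sv_scl] at h
  have h1 := sub_mem h hu
  rw [add_sub_cancel_right] at h1
  refine M.cg_div (a := a) ?_
  rw [← natCast_zsmul]
  push_cast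
  exact h1

/-- The same with a unit `c` as a factor of the sum `us`. -/
theorem sv_split' {n a k : ℕ} {c : ℤ} {ts us : List Tm}
    (h : sv M (scl (3 ^ a) ts ++ scl c us) ∈ M.cg (n + a) k) (hu : sv M us ∈ M.cg (n + a) k) :
    sv M ts ∈ M.cg n k :=
  sv_split h (by rw [sv_scl]; exact AddSubgroup.zsmul_mem _ hu c)

end

/-! ### The end -/

/-- **An element of order three from a closed sum** which is divisible by `3 ^ n` up to torsion and
whose value is not divisible by three. -/
theorem exists_three_tms (h10 : In10 72 z8) {X : List (ℤ × List Ll)} {k : ℤ} {n : ℕ} (hn : n ≠ 0)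
    (hR : ((tms X).map fun t => t.c • ow (fun k g => opP (Fin 72) k g) 1 t.w
      fun u => ev (Fin 72) (.E 0 :: u)).sum [.A 0] ∈ Dv (B := A (Fin 72)) n)
    (hk : cvos X = some k) (h3 : ¬ (3 : ℤ) ∣ k) :
    ∃ y : A (Fin 72), y ≠ 0 ∧ (3 : ℤ) • y = 0 := by
  obtain ⟨F, hF⟩ := exists_upto half3 in8_z8 h10 le_rfl 24 (by norm_num)
  have hc : Nat.card (Fin 72) ≤ 3 * 24 := by simp
  obtain ⟨f, hf⟩ := SWT80.exists_fun half3.uniq hF.fam hc
  have hg : Gv F f := gv_of_val half3.uniq hF.fam hc hf
  have hv := val_tms hg hF.eq8 hF.low (by simp) X k hk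
  generalize ((tms X).map fun t => t.c • ow (fun k g => opP (Fin 72) k g) 1 t.w
      fun u => ev (Fin 72) (.E 0 :: u)).sum [.A 0] = x at hR hv
  obtain ⟨m, y, hm, hy⟩ := hR
  have ht : x - (3 ^ n : ℕ) • y ∈ Submodule.torsion ℤ (A (Fin 72)) := by
    rw [Submodule.mem_torsion_iff]
    refine ⟨⟨(m : ℤ), mem_nonZeroDivisors_of_ne_zero (by exact_mod_cast hm)⟩, ?_⟩
    show (m : ℤ) • (x - (3 ^ n : ℕ) • y) = 0
    rw [natCast_zsmul, smul_sub, hy, mul_smul, sub_self]
  refine exists_ord3 (f := f) ht ?_
  have h0 : f ((3 ^ n : ℕ) • y) = 0 := by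
    obtain ⟨l, rfl⟩ := Nat.exists_eq_succ_of_ne_zero hn
    rw [pow_succ, mul_smul, map_nsmul, map_nsmul]
    generalize f y = c
    have : (3 : ℕ) • c = 0 := by
      revert c
      decide
    rw [this, smul_zero]
  rw [map_sub, h0, sub_zero, hv, Ne, ZMod.intCast_zmod_eq_zero_iff_dvd]
  exact h3

/-- The same for the module of the prefixes. -/
theorem exists_three_pre (h10 : In10 72 z8) (h : AllR (Fin 72)) {X : List (ℤ × List Ll)} {k : ℤ}
    {n : ℕ} (hn : n ≠ 0)
    (hR : sv (pre h) (tms X) ∈ (pre h).cg n 1) (hk : cvos X = some k) (h3 : ¬ (3 : ℤ) ∣ k) :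
    ∃ y : A (Fin 72), y ≠ 0 ∧ (3 : ℤ) • y = 0 :=
  exists_three_tms h10 hn (hR [.A 0] rfl) hk h3

end Pool.Agent.SWL73
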