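import Mathlib
import Pool.Agent.SWL73.Fin

/-!
# The last step with the sum which is computed by the closed check
-/

set_option autoImplicit false

namespace Pool.Agent.SWL73

open Pool.Agent.Jac70 Pool.Agent.SWT85 Pool.Agent.SWT45 Pool.Agent.SWT93 Pool.Agent.SWL57
open Pool.Agent.SWW54 (Lt ev sm sm_cons sm_append tyc)

/-! ### Equality of sums -/

section

variable {G : Type} [AddCommGroup G]

/-- The value of a sum. -/
def gv (V : List ℕ → G) (ts : List Tm) : G := (ts.map fun t => t.c • V t.w).sum

theorem gv_nil (V : List ℕ → G) : gv V [] = 0 := rfl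

theorem gv_cons (V : List ℕ → G) (t : Tm) (ts : List Tm) :
    gv V (t :: ts) = t.c • V t.w + gv V ts := by
  unfold gv
  rw [List.map_cons, List.sum_cons]

theorem gv_append (V : List ℕ → G) (ts us : List Tm) : gv V (ts ++ us) = gv V ts + gv V us := by
  unfold gv
  rw [List.map_append, List.sum_append]

theorem gv_scl (V : List ℕ → G) (c : ℤ) (ts : List Tm) : gv V (scl c ts) = c • gv V ts := by
  induction ts with
  | nil => exact (smul_zero c).symm
  | cons t ts ih =>
    have e : scl c (t :: ts) = ⟨c * t.c, t.w⟩ :: scl c ts := rfl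
    rw [e, gv_cons, gv_cons, ih, smul_add, mul_smul]

/-- The coefficient of a word. -/
def cf (w : List ℕ) : List Tm → ℤ
  | [] => 0
  | t :: ts => if t.w = w then t.c + cf w ts else cf w ts

/-- The sum as a finitely supported function. -/
noncomputable def fs (ts : List Tm) : List ℕ →₀ ℤ :=
  gv (fun w => Finsupp.single w 1) ts

theorem fs_apply (ts : List Tm) (w : List ℕ) : fs ts w = cf w ts := by
  induction ts with
  | nil => rfl
  | cons t ts ih =>
    unfold fs at ih ⊢
    rw [gv_cons, Finsupp.add_apply, ih, Finsupp.smul_apply, Finsupp.single_apply, cf]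
    split_ifs with h
    · rw [smul_eq_mul, mul_one]
    · rw [smul_zero, zero_add]

theorem cf_zero {w : List ℕ} {ts : List Tm} (h : ∀ t ∈ ts, t.w ≠ w) : cf w ts = 0 := by
  induction ts with
  | nil => rfl
  | cons t ts ih =>
    rw [cf, if_neg (h t (List.mem_cons_self ..))]
    exact ih fun t' ht' => h t' (List.mem_cons_of_mem _ ht')

/-- The check that two sums have the same coefficients. -/
def eqT (ts us : List Tm) : Bool := (ts ++ us).all fun t => decide (cf t.w ts = cf t.w us)

theorem fs_eq {ts us : List Tm} (h : eqT ts us = true) : fs ts = fs us := by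
  unfold eqT at h
  rw [List.all_eq_true] at h
  ext w
  rw [fs_apply, fs_apply]
  by_cases hw : ∃ t ∈ ts ++ us, t.w = w
  · obtain ⟨t, ht, rfl⟩ := hw
    exact of_decide_eq_true (h t ht)
  · rw [cf_zero, cf_zero]
    · exact fun t ht he => hw ⟨t, List.mem_append_right _ ht, he⟩
    · exact fun t ht he => hw ⟨t, List.mem_append_left _ ht, he⟩

theorem gv_fs (V : List ℕ → G) (ts : List Tm) :
    gv V ts = Finsupp.liftAddHom (fun w => (zmultiplesHom G) (V w)) (fs ts) := by
  induction ts with
  | nil => exact (map_zero _).symm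
  | cons t ts ih =>
    have e : fs (t :: ts) = t.c • Finsupp.single t.w 1 + fs ts := gv_cons _ t ts
    rw [gv_cons, ih, e, map_add, map_zsmul]
    congr 2
    rw [Finsupp.liftAddHom_apply_single, zmultiplesHom_apply, one_smul]

/-- **Sums with the same coefficients have the same value.** -/
theorem gv_eqT {ts us : List Tm} (h : eqT ts us = true) (V : List ℕ → G) : gv V ts = gv V us := by
  rw [gv_fs, gv_fs, fs_eq h]

end

/-! ### The closed sum -/

section

variable {H : Type} [DecidableEq H]

/-- The value of a sum of closed words. -/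
noncomputable def clv (H : Type) [DecidableEq H] (ts : List Tm) : A H :=
  sm (fun v => ev H (.E 0 :: (v ++ [.A 0]))) (xr ⟨1, 1, ts⟩)

/-- The value of a closed word. -/
noncomputable def clw1 (H : Type) [DecidableEq H] (w : List ℕ) : A H :=
  ow (fun k g => opP H k g) 1 w (fun u => ev H (.E 0 :: u)) [.A 0]

theorem sum_apply (ts : List Tm) (u : List Lt) :
    (ts.map fun t => t.c • ow (fun k g => opP H k g) 1 t.w fun u => ev H (.E 0 :: u)).sum u =
      gv (fun w => ow (fun k g => opP H k g) 1 w (fun u => ev H (.E 0 :: u)) u) ts := by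
  induction ts with
  | nil => rfl
  | cons t ts ih =>
    rw [List.map_cons, List.sum_cons, Pi.add_apply, ih, gv_cons, Pi.smul_apply]

theorem clv_eq (ts : List Tm) : clv H ts = gv (clw1 H) ts := by
  have h1 := sum_opP (H := H) 1 ts (fun u => ev H (.E 0 :: u)) [.A 0]
  rw [sum_apply] at h1
  exact h1.symm

theorem clv_sum (ts : List Tm) : clv H ts =
    (ts.map fun t => t.c • ow (fun k g => opP H k g) 1 t.w
      fun u => ev H (.E 0 :: u)).sum [.A 0] := by
  rw [clv_eq, sum_apply]
  rfl

theorem clv_pre (h : AllR H) {ts : List Tm} {n : ℕ} (hu : sv (pre h) ts ∈ (pre h).cg n 1) :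
    clv H ts ∈ Dv (B := A H) n := by
  rw [clv_sum]
  exact hu [.A 0] rfl

theorem dv_le {n m : ℕ} (h : n ≤ m) {x : A H} (hx : x ∈ Dv (B := A H) m) :
    x ∈ Dv (B := A H) n := by
  induction m, h using Nat.le_induction with
  | base => exact hx
  | succ m _ ih => exact ih (dv_anti hx)

end

/-- **The last step**: the sum `ts` of the closed check is `3 ^ a` times the sum `X` plus `c` times
the sum `us`, which is divisible in the module of the prefixes. -/
theorem exists_three_fin (h10 : In10 72 z8) (h : AllR (Fin 72)) {X : List (ℤ × List Ll)}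
    {ts us : List Tm} {a n m l : ℕ} {c k : ℤ} (hn : n ≠ 0) (hl : n + a ≤ l) (hm : n + a ≤ m)
    (hT : clv (Fin 72) ts ∈ Dv (B := A (Fin 72)) l) (hU : sv (pre h) us ∈ (pre h).cg m 1)
    (he : eqT ts (scl (3 ^ a) (tms X) ++ scl c us) = true)
    (hk : cvos X = some k) (h3 : ¬ (3 : ℤ) ∣ k) : ∃ y : A (Fin 72), y ≠ 0 ∧ (3 : ℤ) • y = 0 := by
  have h1 := dv_le hl hT
  have h2 := dv_le hm (clv_pre h hU)
  rw [clv_eq, gv_eqT he, gv_append, gv_scl, gv_scl, ← clv_eq, ← clv_eq] at h1
  have h4 := sub_mem h1 (AddSubgroup.zsmul_mem _ h2 c)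
  rw [add_sub_cancel_right] at h4
  have h5 : clv (Fin 72) (tms X) ∈ Dv (B := A (Fin 72)) n := by
    refine dv_div (a := a) ?_
    rw [← natCast_zsmul]
    push_cast
    exact h4
  rw [clv_sum] at h5
  exact exists_three_tms h10 hn h5 hk h3

end Pool.Agent.SWL73
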