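import Mathlib
import Pool.Agent.SWL73.Fin2

/-!
# The relation of the width four and its closure
-/

set_option autoImplicit false

namespace Pool.Agent.SWL73

open Pool.Agent.Jac70 Pool.Agent.SWT85 Pool.Agent.SWT45 Pool.Agent.SWT93 Pool.Agent.SWL57

/-- The sum of the target of the tables of the width four. -/
def E8 : List Tm := [
  ⟨-144, [201, 500, 101, 101, 101, 500, 101, 500]⟩,
  ⟨-144, [201, 500, 101, 101, 500, 101, 500, 101]⟩,
  ⟨144, [201, 500, 500, 101, 500, 101, 101, 101]⟩,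
  ⟨72, [201, 0, 500, 101, 101, 101, 500, 500]⟩,
  ⟨96, [201, 0, 500, 101, 101, 500, 101, 500]⟩,
  ⟨72, [201, 0, 500, 101, 101, 500, 500, 101]⟩,
  ⟨-72, [201, 0, 500, 500, 101, 500, 101, 101]⟩,
  ⟨-72, [201, 0, 500, 500, 500, 101, 101, 101]⟩,
  ⟨-48, [201, 0, 0, 500, 101, 101, 500, 500]⟩,
  ⟨12, [201, 0, 0, 500, 500, 101, 500, 101]⟩,
  ⟨36, [201, 0, 0, 500, 500, 500, 101, 101]⟩,
  ⟨-2, [201, 0, 0, 0, 500, 500, 101, 500]⟩,
  ⟨-6, [201, 0, 0, 0, 500, 500, 500, 101]⟩,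
  ⟨1, [201, 0, 0, 0, 0, 500, 500, 500]⟩]

/-- The closure of the sum. -/
def C8 : List Tm := aft [500, 500, 500, 300] E8

theorem c8_cg {rs rs0 : List Rl} {M : Md rs rs0} {n : ℕ} (h : sv M E8 ∈ M.cg n 2) :
    sv M C8 ∈ M.cg n 1 :=
  sv_aft_cg (k := 2) (v := [500, 500, 500, 300]) (by decide) (by decide) h

/-- The last step for the sum `ts` of the closed check. -/
theorem exists_three_c8 (h10 : In10 72 z8) (h : AllR (Fin 72)) {X : List (ℤ × List Ll)}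
    {ts : List Tm} {a n m l : ℕ} {c k : ℤ} (hn : n ≠ 0) (hl : n + a ≤ l) (hm : n + a ≤ m)
    (hT : clv (Fin 72) ts ∈ Dv (B := A (Fin 72)) l) (hE : sv (pre h) E8 ∈ (pre h).cg m 2)
    (he : eqT ts (scl (3 ^ a) (tms X) ++ scl c C8) = true)
    (hk : cvos X = some k) (h3 : ¬ (3 : ℤ) ∣ k) : ∃ y : A (Fin 72), y ≠ 0 ∧ (3 : ℤ) • y = 0 :=
  exists_three_fin h10 h hn hl hm hT (c8_cg hE) he hk h3

end Pool.Agent.SWL73
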