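import Pool.Agent.SWL73.Three
import Pool.Agent.SWA93.T

/-!
# An element of order three in the group of the closed relations (MP_5b4dc9_gt)

The relation of the width four (`SWA93.e8`) completes the proof of `three_of_e8`.
-/

set_option autoImplicit false

namespace Pool.Agent.SWL73

open Pool.Agent.Jac70 Pool.Agent.SWL57

/-- **An element of order three**. -/
theorem three_torsion : ∃ y : A (Fin 72), y ≠ 0 ∧ (3 : ℤ) • y = 0 :=
  three_of_e8 (SWA93.e8 (pre (SWW54.allR (Fin 72))))

end Pool.Agent.SWL73
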