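import Mathlib
import Pool.Agent.SWL73.E8

/-!
# The sum of closed ladders
-/

set_option autoImplicit false

namespace Pool.Agent.SWL73

open Pool.Agent.SWT85 Pool.Agent.SWL57

/-- The sum of closed ladders. -/
def X : List (ℤ × List Ll) := [
  (640, [.h, .h, .r, .h, .r, .h, .h, .r, .r, .h]),
  (-28, [.o, .o, .o, .o, .h, .h, .h, .r, .r, .h]),
  (1, [.o, .o, .o, .o, .h, .h, .h, .h, .h, .h]),
  (64, [.o, .o, .o, .h, .h, .h, .r, .r, .r, .h]),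
  (56, [.o, .o, .o, .h, .h, .r, .h, .r, .r, .h]),
  (-58, [.o, .o, .o, .h, .h, .h, .h, .r, .h, .h]),
  (-128, [.o, .o, .h, .h, .r, .h, .r, .r, .r, .h]),
  (-4, [.o, .o, .h, .h, .h, .r, .r, .h, .h, .h]),
  (112, [.o, .o, .h, .h, .r, .h, .h, .r, .h, .h]),
  (-160, [.o, .h, .r, .h, .h, .h, .h, .r, .r, .h]),
  (-160, [.o, .h, .h, .r, .h, .h, .h, .r, .r, .h]),
  (-160, [.o, .h, .h, .r, .h, .r, .h, .r, .h, .h]),
  (54, [.o, .o, .o, .h, .h, .h, .r, .h, .h, .h]),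
  (-8, [.o, .h, .h, .h, .r, .h, .h, .r, .r, .h]),
  (-640, [.h, .r, .h, .h, .h, .r, .h, .r, .r, .h]),
  (-28, [.o, .o, .h, .h, .r, .h, .h, .h, .r, .h]),
  (4, [.o, .o, .o, .o, .h, .h, .r, .h, .r, .h]),
  (-2, [.o, .o, .o, .o, .o, .h, .h, .h, .r, .h]),
  (-16, [.o, .o, .h, .r, .h, .r, .h, .r, .r, .h]),
  (8, [.o, .o, .o, .h, .r, .h, .h, .r, .r, .h]),
  (8, [.o, .o, .o, .h, .r, .h, .r, .h, .r, .h]),
  (-4, [.o, .o, .o, .o, .h, .r, .h, .h, .r, .h]),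
  (-80, [.o, .h, .h, .r, .h, .r, .h, .h, .r, .h]),
  (24, [.o, .o, .h, .r, .h, .h, .h, .h, .r, .h]),
  (96, [.o, .h, .h, .h, .h, .r, .h, .r, .r, .h]),
  (16, [.h, .h, .h, .h, .r, .h, .r, .r, .r, .h]),
  (16, [.h, .h, .h, .r, .h, .r, .h, .r, .r, .h]),
  (-16, [.h, .h, .h, .r, .r, .r, .h, .r, .h, .h]),
  (-8, [.o, .h, .h, .h, .h, .h, .r, .r, .r, .h]),
  (8, [.o, .h, .h, .h, .r, .r, .h, .r, .h, .h]),
  (8, [.o, .h, .h, .h, .r, .r, .r, .h, .h, .h]),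
  (32, [.o, .o, .h, .h, .h, .h, .h, .r, .r, .h]),
  (320, [.h, .r, .h, .r, .h, .h, .h, .r, .r, .h]),
  (32, [.o, .h, .r, .h, .h, .h, .r, .h, .r, .h])]

/-- The sum of the closed check. -/
def T : List Tm := scl 9 (tms X) ++ C8

end Pool.Agent.SWL73
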