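import Mathlib
import Pool.Agent.SWL73.X
import Pool.Agent.SWT65.In10

/-!
# An element of order three from the two certificates
-/

set_option autoImplicit false

namespace Pool.Agent.SWL73

open Pool.Agent.Jac70 Pool.Agent.SWT85 Pool.Agent.SWT45 Pool.Agent.SWT93 Pool.Agent.SWL57
open Pool.Agent.SWW54 (Lt ev sm)

theorem cvos_X : cvos X = some 118784 := by decide +kernel

theorem T_eq : eqT T (scl (3 ^ 2) (tms X) ++ scl 1 C8) = true := by decide +kernel

/-- **An element of order three**, from the closed check and the relation of the width four. -/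
theorem three_of (h : AllR (Fin 72)) (hT : clv (Fin 72) T ∈ Dv (B := A (Fin 72)) 7)
    (hE : sv (pre h) E8 ∈ (pre h).cg 14 2) : ∃ y : A (Fin 72), y ≠ 0 ∧ (3 : ℤ) • y = 0 :=
  exists_three_c8 SWT65.in10 h (n := 1) (a := 2) (l := 7) (m := 14) (c := 1) (by norm_num)
    (by norm_num) (by norm_num) hT hE T_eq cvos_X (by norm_num)

/-- The same for a list `ts` with the same coefficients as `T`. -/
theorem three_of' (h : AllR (Fin 72)) {ts : List Tm} (ht : eqT ts T = true)
    (hT : clv (Fin 72) ts ∈ Dv (B := A (Fin 72)) 7) (hE : sv (pre h) E8 ∈ (pre h).cg 14 2) :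
    ∃ y : A (Fin 72), y ≠ 0 ∧ (3 : ℤ) • y = 0 := by
  refine three_of h ?_ hE
  rw [clv_eq, ← gv_eqT ht, ← clv_eq]
  exact hT

end Pool.Agent.SWL73
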