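import Mathlib
import Pool.Agent.SWL73.Last
import Pool.Agent.SWC93.Closed
import Pool.Agent.SWW54.All

/-!
# An element of order three
-/

set_option autoImplicit false

namespace Pool.Agent.SWL73

open Pool.Agent.Jac70 Pool.Agent.SWL57

theorem tg_eq : eqT SWC93.tg T = true := by decide +kernel

/-- The closed relation. -/
theorem closed_rel : clv (Fin 72) SWC93.tg ∈ Dv (B := A (Fin 72)) 7 :=
  SWC93.closed (SWW54.allR (Fin 72))

/-- **An element of order three** from the relation of the width four. -/
theorem three_of_e8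
    (hE : sv (pre (SWW54.allR (Fin 72))) E8 ∈ (pre (SWW54.allR (Fin 72))).cg 14 2) :
    ∃ y : A (Fin 72), y ≠ 0 ∧ (3 : ℤ) • y = 0 :=
  three_of' (SWW54.allR (Fin 72)) tg_eq closed_rel hE

end Pool.Agent.SWL73
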